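import Pool.Agent.X155.UltraD

/-!
# Completions of ray-generated ultrametric spaces and starlike rayless trees

For an infinite ultrametric space `X` the conditions (i) and (ii) of the problem are equivalent.

(i) ⇒ (ii): if the totally bounded space `X₀` is generated by the labelled ray `x₀, x₁, ...`, then
the labels tend to `0`, the `xₙ` converge to a point `c` and `X = X₀ ∪ {c}`. Let `xₖ` be a record if
all later labels are at most `l(xₖ)`. The tree in which the parent of `xₖ` is `c` if `xₖ` is a record
and `xₖ₊₁` otherwise, with the label `0` at `c`, is starlike, rayless and generates `X`.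

(ii) ⇒ (i): the centre `c` is the only accumulation point and has the label `0`. The branches at `c`
are cut before every vertex whose label is larger than all labels between `c` and it. The blocks
are listed by decreasing distance from `c`, each block from its deepest vertex to its top; the
vertices different from `c`, in this order, form a ray that generates `X \ {c}`.
-/

namespace Pool.Agent.Results.MP_16b74e_gt.StarlikeCompletions

open X155.UR

theorem result (X : Type*) [MetricSpace X] [IsUltrametricDist X] [Infinite X] :
    (∃ X₀ : Set X, X₀ ≠ Set.univ ∧ TotallyBounded X₀ ∧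
      (∃ (R : SimpleGraph X₀) (l : X₀ → ℝ), IsRay R ∧ GeneratedBy R l) ∧
      CompleteSpace X ∧ Dense X₀) ↔
    (CompactSpace X ∧ ∃ (T : SimpleGraph X) (l : X → ℝ),
      Starlike T ∧ Rayless T ∧ GeneratedBy T l) := by
  constructor
  · rintro ⟨X₀, hne, htb, ⟨R, l, ⟨x, hx, hR⟩, hg⟩, hc, hd⟩
    have hr : Set.range (fun n => (x n : X)) = X₀ := by
      ext v
      constructor
      · rintro ⟨n, rfl⟩
        exact (x n).2
      · intro hv
        obtain ⟨n, hn⟩ := hx.2 ⟨v, hv⟩
        exact ⟨n, congrArg Subtype.val hn⟩
    refine forward (fun n => (x n : X)) (fun n => l (x n))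
      (Subtype.val_injective.comp hx.1) (fun k => hg.2.1 _)
      (fun i j hij => seq_of_ray R l x hx hR hg i j hij) ?_ ?_ ?_
    · rw [hr]; exact htb
    · rw [hr]; exact hne
    · rw [hr]; exact hd
  · rintro ⟨hc, T, l, hs, -, hg⟩
    exact backward T l hs hg

end Pool.Agent.Results.MP_16b74e_gt.StarlikeCompletions
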